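import Pool.Agent.W268.Dy.Stm

set_option autoImplicit false

/-! # DY project: global solutions of ordinary differential equations with a bounded Lipschitz
vector field -/

namespace Pool.Agent.W333.DyGE

open Set Filter Topology

theorem main : Pool.Agent.W268.Dy.S_GE := by
  intro ι _ F L B hL hB x0
  have hloc : ∀ n : ℕ, ∃ α : ℝ → ι → ℝ, α 0 = x0 ∧
      ∀ t ∈ Ioo (-((n : ℝ) + 1)) ((n : ℝ) + 1), HasDerivAt α (F (α t)) t := by
    intro n
    have hn : (0 : ℝ) < (n : ℝ) + 1 := by positivity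
    have h0 : (0 : ℝ) ∈ Icc (-((n : ℝ) + 1)) ((n : ℝ) + 1) := ⟨by linarith, hn.le⟩
    set b : NNReal := Real.toNNReal B with hb
    have hPL : IsPicardLindelof (fun _ : ℝ => F) (tmin := -((n : ℝ) + 1)) (tmax := (n : ℝ) + 1)
        ⟨0, h0⟩ x0 (b * ((n : NNReal) + 1)) 0 b L := by
      apply IsPicardLindelof.of_time_independent
      · intro x _
        exact (hB x).trans (Real.le_coe_toNNReal B)
      · exact hL.lipschitzOnWith
      · simp
    obtain ⟨α, h1, h2⟩ := hPL.exists_eq_forall_mem_Icc_hasDerivWithinAt₀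
    exact ⟨α, h1, fun t ht => (h2 t (Ioo_subset_Icc_self ht)).hasDerivAt (Icc_mem_nhds ht.1 ht.2)⟩
  choose X hX0 hX using hloc
  have heq : ∀ n m : ℕ, n ≤ m → ∀ t ∈ Ioo (-((n : ℝ) + 1)) ((n : ℝ) + 1), X n t = X m t := by
    intro n m hnm
    have hn : (0 : ℝ) < (n : ℝ) + 1 := by positivity
    have hnm' : (n : ℝ) ≤ m := by exact_mod_cast hnm
    exact ODE_solution_unique_of_mem_Ioo (v := fun _ => F) (s := fun _ => univ) (K := L)
      (t₀ := 0) (fun t _ => hL.lipschitzOnWith) ⟨by linarith, hn⟩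
      (fun t ht => ⟨hX n t ht, trivial⟩)
      (fun t ht => ⟨hX m t ⟨by linarith [ht.1], by linarith [ht.2]⟩, trivial⟩)
      (by rw [hX0, hX0])
  have hmem : ∀ (t : ℝ) (n : ℕ), |t| ≤ n → t ∈ Ioo (-((n : ℝ) + 1)) ((n : ℝ) + 1) := by
    intro t n h
    rw [abs_le] at h
    exact ⟨by linarith [h.1], by linarith [h.2]⟩
  refine ⟨fun t => X ⌈|t|⌉₊ t, ?_, fun t => ?_⟩
  · exact hX0 _
  · set N : ℕ := ⌈|t|⌉₊ + 1 with hN
    have htN : |t| ≤ N := by
      have := Nat.le_ceil |t|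
      rw [hN]; push_cast; linarith
    have h1 : ∀ s : ℝ, |s| < |t| + 1 → X ⌈|s|⌉₊ s = X N s := by
      intro s hs
      refine heq _ _ ?_ s (hmem s _ (Nat.le_ceil _))
      rw [Nat.ceil_le, hN]
      have := Nat.le_ceil |t|
      push_cast
      linarith
    have h2 : (fun s => X ⌈|s|⌉₊ s) =ᶠ[𝓝 t] X N := by
      have h3 : {s : ℝ | |s| < |t| + 1} ∈ 𝓝 t :=
        (isOpen_lt continuous_abs continuous_const).mem_nhds (by show |t| < |t| + 1; linarith)
      exact Filter.eventually_of_mem h3 fun s hs => h1 s hs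
    have h4 : F (X ⌈|t|⌉₊ t) = F (X N t) := by rw [h1 t (by linarith)]
    show HasDerivAt (fun s => X ⌈|s|⌉₊ s) (F (X ⌈|t|⌉₊ t)) t
    rw [h4]
    exact (hX N t (hmem t N htN)).congr_of_eventuallyEq h2

end Pool.Agent.W333.DyGE
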