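import Pool.Agent.W276.GE.Stm
import Pool.Agent.H503R3.QCI.Hilb

set_option autoImplicit false

open MvPolynomial

noncomputable section

namespace Pool.Agent.W333.GELin

open H503R3.QCI

/-- Regularity is transported by ring automorphisms. -/
lemma reg_map {n m : ℕ} {F : Type} [Field F]
    (e : MvPolynomial (Fin n) F ≃+* MvPolynomial (Fin n) F)
    {f : Fin m → MvPolynomial (Fin n) F} (h : Reg f) : Reg (fun i => e (f i)) := by
  intro i x hx
  have h1 : ∀ y, y ∈ Ideal.span ((fun i => e (f i)) '' {j | j < i}) ↔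
      e.symm y ∈ Ideal.span (f '' {j | j < i}) := by
    intro y
    have h2 : (fun i => e (f i)) '' {j | j < i} =
        (e : MvPolynomial (Fin n) F →+* MvPolynomial (Fin n) F) '' (f '' {j | j < i}) := by
      rw [Set.image_image]; rfl
    rw [h2, ← Ideal.map_span, Ideal.map_comap_of_equiv]
    rfl
  rw [h1] at hx ⊢
  rw [map_mul, e.symm_apply_apply] at hx
  exact h i _ hx

/-- A linear form is the combination of the variables with its coefficients. -/
lemma lin_eq {n : ℕ} {F : Type} [Field F] {f : MvPolynomial (Fin n) F} (hf : f.IsHomogeneous 1) :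
    ∃ a : Fin n → F, f = ∑ j, C (a j) * X j := by
  have h1 : f ∈ homogeneousSubmodule (Fin n) F 1 := hf
  rw [homogeneousSubmodule_one_eq_span_X, Submodule.mem_span_range_iff_exists_fun] at h1
  obtain ⟨c, hc⟩ := h1
  refine ⟨c, ?_⟩
  rw [← hc]
  exact Finset.sum_congr rfl fun j _ => by rw [MvPolynomial.smul_eq_C_mul]

/-- The endomorphism of the polynomial ring given by a matrix. -/
def sub {n : ℕ} {F : Type} [Field F] (A : Matrix (Fin n) (Fin n) F) :
    MvPolynomial (Fin n) F →ₐ[F] MvPolynomial (Fin n) F :=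
  aeval fun i => ∑ j, C (A i j) * X j

lemma sub_X {n : ℕ} {F : Type} [Field F] (A : Matrix (Fin n) (Fin n) F) (i : Fin n) :
    sub A (X i) = ∑ j, C (A i j) * X j := by
  simp [sub]

lemma sub_mul {n : ℕ} {F : Type} [Field F] (A B : Matrix (Fin n) (Fin n) F) (h : A * B = 1) :
    (sub B).comp (sub A) = AlgHom.id F _ := by
  apply MvPolynomial.algHom_ext
  intro i
  rw [AlgHom.comp_apply, sub_X, map_sum]
  have h1 : ∀ j, (sub B) (C (A i j) * X j) = ∑ k, C (A i j * B j k) * X k := by
    intro j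
    rw [map_mul, sub_X, Finset.mul_sum]
    refine Finset.sum_congr rfl fun k _ => ?_
    have h2 : (sub B) (C (A i j)) = C (A i j) := by simp [sub]
    rw [h2, C_mul, mul_assoc]
  rw [Finset.sum_congr rfl fun j _ => h1 j, Finset.sum_comm]
  have h3 : ∀ k, (∑ j, C (A i j * B j k) * X k : MvPolynomial (Fin n) F) =
      C ((1 : Matrix (Fin n) (Fin n) F) i k) * X k := by
    intro k
    rw [← Finset.sum_mul, ← map_sum, ← h, Matrix.mul_apply]
  rw [Finset.sum_congr rfl fun k _ => h3 k]
  simp [Matrix.one_apply, Finset.sum_ite_eq]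

/-- GE-LIN. -/
theorem lin : Pool.Agent.W276.GE.S_lin := by
  intro n l hl hf hz
  obtain ⟨g, rfl⟩ : ∃ g : Fin n → MvPolynomial (Fin n) ℂ, List.ofFn g = l := by
    refine ⟨fun i => l.get (Fin.cast hl.symm i), ?_⟩
    apply List.ext_getElem
    · simp [hl]
    · intro i h1 h2
      simp
  -- the coefficients
  have h1 : ∀ i : Fin n, ∃ a : Fin n → ℂ, g i = ∑ j, C (a j) * X j := fun i =>
    lin_eq (hf _ (List.mem_ofFn.mpr ⟨i, rfl⟩))
  choose A hA using h1
  have hinj : Function.Injective (Matrix.mulVecLin (Matrix.of A)) := by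
    rw [← LinearMap.ker_eq_bot, LinearMap.ker_eq_bot']
    intro x hx
    apply hz
    intro f hfl
    obtain ⟨i, rfl⟩ := List.mem_ofFn.mp hfl
    have h2 := congrFun hx i
    rw [hA]
    simpa [Matrix.mulVec, dotProduct] using h2
  have hU : IsUnit (Matrix.of A) := by
    rw [← Matrix.mulVec_injective_iff_isUnit]
    exact hinj
  have hd : IsUnit (Matrix.of A).det := (Matrix.isUnit_iff_isUnit_det _).mp hU
  let e : MvPolynomial (Fin n) ℂ ≃ₐ[ℂ] MvPolynomial (Fin n) ℂ :=
    AlgEquiv.ofAlgHom (sub (Matrix.of A)) (sub (Matrix.of A)⁻¹)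
      (sub_mul _ _ (Matrix.nonsing_inv_mul _ hd)) (sub_mul _ _ (Matrix.mul_nonsing_inv _ hd))
  have h3 := reg_map e.toRingEquiv (reg_X (F := ℂ) (n := n))
  have h4 : (fun i : Fin n => e.toRingEquiv (X i)) = g := by
    funext i
    change sub (Matrix.of A) (X i) = g i
    rw [sub_X, hA]
    rfl
  rw [h4] at h3
  exact isWeaklyRegular_of_reg h3

end Pool.Agent.W333.GELin
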