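import Pool.Agent.W792.Bk.Stms

/-!
# The quadratic identity `S_id`
-/

namespace Pool.Agent.W333.BkId

open MeasureTheory Set Pool.Agent.W792.Bk
open scoped ContDiff

lemma int_zero {F : ℝ × ℝ → ℝ} (hF : ContDiff ℝ 1 F) (hc : HasCompactSupport F) (v : ℝ × ℝ) :
    ∫ z, fderiv ℝ F z v = 0 := by
  have hcF : Continuous (fun z => fderiv ℝ F z v) :=
    (hF.continuous_fderiv (by norm_num)).clm_apply continuous_const
  have hcc : HasCompactSupport (fun z => fderiv ℝ F z v) := hc.fderiv_apply (𝕜 := ℝ) v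
  have h := integral_mul_fderiv_eq_neg_fderiv_mul_of_integrable
    (μ := (volume : Measure (ℝ × ℝ))) (f := fun _ => (1 : ℝ)) (g := F) (v := v)
    (by simp) (by simpa using hcF.integrable_of_hasCompactSupport hcc)
    (by simpa using hF.continuous.integrable_of_hasCompactSupport hc)
    (fun _ _ => differentiableAt_const _)
    (fun x _ => (hF.differentiable (by norm_num)) x)
  simpa using h

lemma smooth_dx {f : ℝ × ℝ → ℝ} (hf : ContDiff ℝ ∞ f) : ContDiff ℝ ∞ (dx f) := by
  unfold dx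
  exact (hf.fderiv_right (m := ∞) (by simp)).clm_apply contDiff_const

lemma smooth_dy {f : ℝ × ℝ → ℝ} (hf : ContDiff ℝ ∞ f) : ContDiff ℝ ∞ (dy f) := by
  unfold dy
  exact (hf.fderiv_right (m := ∞) (by simp)).clm_apply contDiff_const

lemma supp_dx {f : ℝ × ℝ → ℝ} : tsupport (dx f) ⊆ tsupport f :=
  tsupport_fderiv_apply_subset ℝ (1, 0)

lemma supp_dy {f : ℝ × ℝ → ℝ} : tsupport (dy f) ⊆ tsupport f :=
  tsupport_fderiv_apply_subset ℝ (0, 1)

lemma sym {f : ℝ × ℝ → ℝ} (hf : ContDiff ℝ ∞ f) : dx (dy f) = dy (dx f) := by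
  funext z
  have hs : IsSymmSndFDerivAt ℝ f z := by
    refine hf.contDiffAt.isSymmSndFDerivAt ?_
    rw [minSmoothness_of_isRCLikeNormedField]
    exact WithTop.coe_le_coe.mpr (le_top : (2 : ℕ∞) ≤ ⊤)
  have hd : DifferentiableAt ℝ (fderiv ℝ f) z :=
    ((hf.fderiv_right (m := ∞) (by simp)).differentiable (by simp)) z
  have h1 : dx (dy f) z = fderiv ℝ (fderiv ℝ f) z (1, 0) (0, 1) := by
    unfold dx dy
    rw [fderiv_clm_apply hd (differentiableAt_const _)]
    simp
  have h2 : dy (dx f) z = fderiv ℝ (fderiv ℝ f) z (0, 1) (1, 0) := by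
    unfold dx dy
    rw [fderiv_clm_apply hd (differentiableAt_const _)]
    simp
  rw [h1, h2]
  exact hs.eq (1, 0) (0, 1)

lemma hfd {f : ℝ × ℝ → ℝ} (hf : ContDiff ℝ ∞ f) (z : ℝ × ℝ) :
    HasFDerivAt f (fderiv ℝ f z) z := ((hf.differentiable (by simp)) z).hasFDerivAt

lemma hfd_fst {q : ℝ → ℝ} (hq : ContDiff ℝ ∞ q) (z : ℝ × ℝ) :
    HasFDerivAt (fun w : ℝ × ℝ => q w.1)
      (deriv q z.1 • ContinuousLinearMap.fst ℝ ℝ ℝ) z := by
  have h1 : HasDerivAt q (deriv q z.1) z.1 := ((hq.differentiable (by simp)) z.1).hasDerivAt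
  have h2 : HasFDerivAt (fun w : ℝ × ℝ => w.1) (ContinuousLinearMap.fst ℝ ℝ ℝ) z :=
    hasFDerivAt_fst
  exact h1.comp_hasFDerivAt z h2

theorem main : S_id := by
  intro q h hq hh hc
  set a : ℝ × ℝ → ℝ := dx h with ha
  set b : ℝ × ℝ → ℝ := dy h with hb
  have sa : ContDiff ℝ ∞ a := smooth_dx hh
  have sb : ContDiff ℝ ∞ b := smooth_dy hh
  have sby : ContDiff ℝ ∞ (dy b) := smooth_dy sb
  have say : ContDiff ℝ ∞ (dy a) := smooth_dy sa
  have sax : ContDiff ℝ ∞ (dx a) := smooth_dx sa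
  have sq' : ContDiff ℝ ∞ (deriv q) := by
    have := hq.iterate_deriv 1
    simpa using this
  have hsym : dx b = dy a := sym hh
  have hsym2 : dx (dy b) = dy (dy a) := by rw [sym sb, hsym]
  -- the two vector fields
  set G : ℝ × ℝ → ℝ := fun z => 2 * (a z * dy b z) + 2 * (a z * a z) - 2 * (b z * b z) +
    (2 + 2 * (q z.1 * q z.1)) * (h z * a z) +
    (2 - 2 * (q z.1 * q z.1) - 4 * (q z.1 * deriv q z.1)) * (h z * h z) with hG
  set K : ℝ × ℝ → ℝ := fun z => 4 * (b z * a z) - 2 * (a z * dy a z) +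
    (2 + 2 * (q z.1 * q z.1)) * (h z * b z) with hK
  have cq : ContDiff ℝ ∞ (fun z : ℝ × ℝ => q z.1) := hq.comp contDiff_fst
  have cq' : ContDiff ℝ ∞ (fun z : ℝ × ℝ => deriv q z.1) := sq'.comp contDiff_fst
  have sG : ContDiff ℝ ∞ G := by
    rw [hG]; fun_prop
  have sK : ContDiff ℝ ∞ K := by
    rw [hK]; fun_prop
  -- vanishing off the support
  have v0 : ∀ z ∉ tsupport h, h z = 0 ∧ a z = 0 ∧ b z = 0 ∧ dx a z = 0 ∧ dy a z = 0 ∧
      dy b z = 0 := by
    intro z hz
    refine ⟨image_eq_zero_of_notMem_tsupport hz,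
      image_eq_zero_of_notMem_tsupport (fun h1 => hz (supp_dx h1)),
      image_eq_zero_of_notMem_tsupport (fun h1 => hz (supp_dy h1)),
      image_eq_zero_of_notMem_tsupport (fun h1 => hz (supp_dx (supp_dx h1))),
      image_eq_zero_of_notMem_tsupport (fun h1 => hz (supp_dx (supp_dy h1))),
      image_eq_zero_of_notMem_tsupport (fun h1 => hz (supp_dy (supp_dy h1)))⟩
  have kc : IsCompact (tsupport h) := hc
  have cG : HasCompactSupport G := by
    refine HasCompactSupport.intro kc fun z hz => ?_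
    obtain ⟨h1, h2, h3, h4, h5, h6⟩ := v0 z hz
    simp [hG, h1, h2, h3]
  have cK : HasCompactSupport K := by
    refine HasCompactSupport.intro kc fun z hz => ?_
    obtain ⟨h1, h2, h3, h4, h5, h6⟩ := v0 z hz
    simp [hK, h1, h2, h3]
  have iG : ∫ z, dx G z = 0 := int_zero (sG.of_le (by simp)) cG _
  have iK : ∫ z, dy K z = 0 := int_zero (sK.of_le (by simp)) cK _
  have inG : Integrable (dx G) := by
    refine (smooth_dx sG).continuous.integrable_of_hasCompactSupport ?_
    exact cG.fderiv_apply (𝕜 := ℝ) (1, 0)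
  have inK : Integrable (dy K) := by
    refine (smooth_dy sK).continuous.integrable_of_hasCompactSupport ?_
    exact cK.fderiv_apply (𝕜 := ℝ) (0, 1)
  have hqq : ∀ t, deriv (fun t => q t * deriv q t) t =
      deriv q t * deriv q t + q t * deriv (deriv q) t := by
    intro t
    have h1 : HasDerivAt q (deriv q t) t := ((hq.differentiable (by simp)) t).hasDerivAt
    have h2 : HasDerivAt (deriv q) (deriv (deriv q) t) t :=
      ((sq'.differentiable (by simp)) t).hasDerivAt
    exact (h1.mul h2).deriv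
  have dG : ∀ z, dx G z = 2 * (dx a z * dy b z + a z * dy (dy a) z) + 4 * (a z * dx a z) -
      4 * (b z * dy a z) + (2 + 2 * (q z.1 * q z.1)) * (a z * a z + h z * dx a z) +
      4 * (q z.1 * deriv q z.1) * (h z * a z) +
      (2 - 2 * (q z.1 * q z.1) - 4 * (q z.1 * deriv q z.1)) * (2 * (h z * a z)) +
      (- 4 * (q z.1 * deriv q z.1) - 4 * (deriv q z.1 * deriv q z.1 +
        q z.1 * deriv (deriv q) z.1)) * (h z * h z) := by
    intro z
    have e1 := hfd hh z
    have e2 := hfd sa z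
    have e3 := hfd sb z
    have e4 := hfd sby z
    have e5 := hfd_fst hq z
    have e6 := hfd_fst sq' z
    have e := (((((e2.mul e4).const_mul 2).add ((e2.mul e2).const_mul 2)).sub
      ((e3.mul e3).const_mul 2)).add ((((e5.mul e5).const_mul 2).const_add 2).mul
      (e1.mul e2))).add (((((e5.mul e5).const_mul 2).const_sub 2).sub
      ((e5.mul e6).const_mul 4)).mul (e1.mul e1))
    have e7 : fderiv ℝ G z = _ := e.fderiv
    have e8 : dx G z = fderiv ℝ G z (1, 0) := rfl
    rw [e8, e7]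
    have f1 : fderiv ℝ h z (1, 0) = a z := rfl
    have f2 : fderiv ℝ a z (1, 0) = dx a z := rfl
    have f3 : fderiv ℝ b z (1, 0) = dy a z := congrFun hsym z
    have f4 : fderiv ℝ (dy b) z (1, 0) = dy (dy a) z := congrFun hsym2 z
    simp [f1, f2, f3, f4]
    ring
  have dK : ∀ z, dy K z = 4 * (dy b z * a z + b z * dy a z) - 2 * (dy a z * dy a z +
      a z * dy (dy a) z) + (2 + 2 * (q z.1 * q z.1)) * (b z * b z + h z * dy b z) := by
    intro z
    have e1 := hfd hh z
    have e2 := hfd sa z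
    have e3 := hfd sb z
    have e4 := hfd say z
    have e5 := hfd_fst hq z
    have e := ((((e3.mul e2).const_mul 4).sub ((e2.mul e4).const_mul 2)).add
      ((((e5.mul e5).const_mul 2).const_add 2).mul (e1.mul e3)))
    have e7 : fderiv ℝ K z = _ := e.fderiv
    have e8 : dy K z = fderiv ℝ K z (0, 1) := rfl
    rw [e8, e7]
    have f1 : fderiv ℝ h z (0, 1) = b z := rfl
    have f2 : fderiv ℝ a z (0, 1) = dy a z := rfl
    have f3 : fderiv ℝ b z (0, 1) = dy b z := rfl
    have f4 : fderiv ℝ (dy a) z (0, 1) = dy (dy a) z := rfl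
    simp [f1, f2, f3, f4]
    ring
  set R : ℝ × ℝ → ℝ := fun z => dx a z ^ 2 + 2 * dy a z ^ 2 + dy b z ^ 2 +
        (2 - 6 * q z.1 ^ 2) * a z ^ 2 - (2 + 2 * q z.1 ^ 2) * b z ^ 2 +
        ((1 - q z.1 ^ 2) ^ 2 + 4 * deriv (fun t => q t * deriv q t) z.1 - deriv q z.1 ^ 2) *
          h z ^ 2 with hR
  have inR : Integrable R := by
    have sqq : ContDiff ℝ ∞ (deriv (fun t => q t * deriv q t)) := by
      have := (hq.mul sq').iterate_deriv 1
      simpa using this
    have cqq : ContDiff ℝ ∞ (fun z : ℝ × ℝ => deriv (fun t => q t * deriv q t) z.1) :=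
      sqq.comp contDiff_fst
    have sR : ContDiff ℝ ∞ R := by
      rw [hR]; fun_prop
    refine sR.continuous.integrable_of_hasCompactSupport ?_
    refine HasCompactSupport.intro kc fun z hz => ?_
    obtain ⟨h1, h2, h3, h4, h5, h6⟩ := v0 z hz
    simp [hR, h1, h2, h3, h4, h5, h6]
  calc _ = ∫ z, (R z + (dx G z + dy K z)) := by
        refine integral_congr_ae (Filter.Eventually.of_forall fun z => ?_)
        simp only [dG, dK, hR, hqq]
        ring
    _ = ∫ z, R z := by
        have e1 : ∫ z, (R z + (dx G z + dy K z)) = (∫ z, R z) + ∫ z, (dx G z + dy K z) :=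
          integral_add inR (inG.add inK)
        have e2 : ∫ z, (dx G z + dy K z) = (∫ z, dx G z) + ∫ z, dy K z := integral_add inG inK
        rw [e1, e2, iG, iK]
        simp

end Pool.Agent.W333.BkId
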