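import Pool.Agent.W792.Bk.Stms
import Pool.Agent.Helper714.CM.J1888

/-!
# Two Wirtinger inequalities `S_wir`
-/

namespace Pool.Agent.W333.BkWir

open MeasureTheory Set Pool.Agent.W792.Bk
open scoped ContDiff

lemma ii_sub {f g : ℝ → ℝ} (hf : Continuous f) (hg : Continuous g) {a b : ℝ} :
    ∫ x in a..b, (f x - g x) = (∫ x in a..b, f x) - ∫ x in a..b, g x :=
  intervalIntegral.integral_sub (hf.intervalIntegrable _ _) (hg.intervalIntegrable _ _)

/-- Dirichlet Wirtinger inequality, sub-critical form -/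
theorem wirt_lt {M m : ℝ → ℝ} (hM : ∀ x, HasDerivAt M (m x) x) (hm : Continuous m)
    (h0 : M 0 = 0) (h1 : M 1 = 0) {w : ℝ} (hw0 : 0 < w) (hw : w < Real.pi) :
    w ^ 2 * ∫ x in (0:ℝ)..1, M x ^ 2 ≤ ∫ x in (0:ℝ)..1, m x ^ 2 := by
  have hMc : Continuous M := continuous_iff_continuousAt.2 fun x => (hM x).continuousAt
  have hcos : ∀ x ∈ uIcc (0:ℝ) 1, 0 < Real.cos (w * (x - 1 / 2)) := by
    intro x hx
    rw [uIcc_of_le (by norm_num)] at hx
    apply Real.cos_pos_of_mem_Ioo
    constructor
    · nlinarith [hx.1, hx.2]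
    · nlinarith [hx.1, hx.2]
  have hder : ∀ x ∈ uIcc (0:ℝ) 1, HasDerivAt
      (fun x => M x ^ 2 * (w * (Real.sin (w * (x - 1 / 2)) / Real.cos (w * (x - 1 / 2)))))
      (2 * M x * m x * (w * (Real.sin (w * (x - 1 / 2)) / Real.cos (w * (x - 1 / 2))))
        + M x ^ 2 * (w ^ 2 * (1 + (Real.sin (w * (x - 1 / 2)) / Real.cos (w * (x - 1 / 2))) ^ 2))) x := by
    intro x hx
    have hc := hcos x hx
    have e1 : HasDerivAt (fun x : ℝ => w * (x - 1 / 2)) (w * 1) x :=
      ((hasDerivAt_id x).sub_const _).const_mul _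
    have e2 : HasDerivAt (fun x => w * (Real.sin (w * (x - 1 / 2)) / Real.cos (w * (x - 1 / 2))))
        (w ^ 2 * (1 + (Real.sin (w * (x - 1 / 2)) / Real.cos (w * (x - 1 / 2))) ^ 2)) x := by
      have := (e1.sin.div e1.cos hc.ne').const_mul w
      refine this.congr_deriv ?_
      have hne := hc.ne'
      clear this
      generalize Real.cos (w * (x - 1 / 2)) = C at *
      generalize Real.sin (w * (x - 1 / 2)) = S at *
      field_simp
      ring
    have e3 := ((hM x).pow 2).mul e2
    refine e3.congr_deriv ?_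
    simp
  have hcont : ContinuousOn (fun x => 2 * M x * m x * (w * (Real.sin (w * (x - 1 / 2)) / Real.cos (w * (x - 1 / 2))))
        + M x ^ 2 * (w ^ 2 * (1 + (Real.sin (w * (x - 1 / 2)) / Real.cos (w * (x - 1 / 2))) ^ 2))) (uIcc 0 1) := by
    have hq : ContinuousOn (fun x => Real.sin (w * (x - 1 / 2)) / Real.cos (w * (x - 1 / 2))) (uIcc 0 1) :=
      ContinuousOn.div (by fun_prop) (by fun_prop) (fun x hx => (hcos x hx).ne')
    fun_prop
  have hint := intervalIntegral.integral_eq_sub_of_hasDerivAt hder hcont.intervalIntegrable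
  rw [h0, h1] at hint
  simp only [ne_eq, OfNat.ofNat_ne_zero, not_false_eq_true, zero_pow, zero_mul, sub_zero] at hint
  have key : ∫ x in (0:ℝ)..1, (m x ^ 2 - w ^ 2 * M x ^ 2) =
      ∫ x in (0:ℝ)..1, (m x + M x * (w * (Real.sin (w * (x - 1 / 2)) / Real.cos (w * (x - 1 / 2))))) ^ 2 := by
    have hsq : ContinuousOn (fun x => (m x + M x * (w * (Real.sin (w * (x - 1 / 2)) / Real.cos (w * (x - 1 / 2))))) ^ 2) (uIcc 0 1) := by
      have hq : ContinuousOn (fun x => Real.sin (w * (x - 1 / 2)) / Real.cos (w * (x - 1 / 2))) (uIcc 0 1) :=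
        ContinuousOn.div (by fun_prop) (by fun_prop) (fun x hx => (hcos x hx).ne')
      fun_prop
    have k1 := intervalIntegral.integral_sub (μ := volume) hsq.intervalIntegrable hcont.intervalIntegrable
    rw [hint, sub_zero] at k1
    rw [← k1]
    congr 1; ext x
    ring
  have hnn : 0 ≤ ∫ x in (0:ℝ)..1, (m x + M x * (w * (Real.sin (w * (x - 1 / 2)) / Real.cos (w * (x - 1 / 2))))) ^ 2 :=
    intervalIntegral.integral_nonneg (by norm_num) (fun x _ => sq_nonneg _)
  rw [← key, ii_sub (by fun_prop) (by fun_prop), intervalIntegral.integral_const_mul] at hnn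
  linarith

/-- Dirichlet Wirtinger inequality -/
theorem wirt {M m : ℝ → ℝ} (hM : ∀ x, HasDerivAt M (m x) x) (hm : Continuous m)
    (h0 : M 0 = 0) (h1 : M 1 = 0) :
    Real.pi ^ 2 * ∫ x in (0:ℝ)..1, M x ^ 2 ≤ ∫ x in (0:ℝ)..1, m x ^ 2 := by
  have ht : Filter.Tendsto (fun w : ℝ => w ^ 2 * ∫ x in (0:ℝ)..1, M x ^ 2) (nhdsWithin Real.pi (Iio Real.pi))
      (nhds (Real.pi ^ 2 * ∫ x in (0:ℝ)..1, M x ^ 2)) := by
    have : Continuous (fun w : ℝ => w ^ 2 * ∫ x in (0:ℝ)..1, M x ^ 2) := by fun_prop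
    exact this.continuousAt.tendsto.mono_left nhdsWithin_le_nhds
  refine le_of_tendsto ht ?_
  filter_upwards [Ioo_mem_nhdsLT Real.pi_pos] with w hw
  exact wirt_lt hM hm h0 h1 hw.1 hw.2


lemma line_eq {F : ℝ → ℝ} {a b : ℝ} (h : Function.support F ⊆ Ioc a b) :
    ∫ x, F x = ∫ x in a..b, F x :=
  (intervalIntegral.integral_eq_integral_of_support_subset h).symm

theorem main : S_wir := by
  intro a φ hφ hc hs
  have hpi := Real.pi_pos
  have sψ : ContDiff ℝ ∞ (deriv φ) := by
    have := hφ.iterate_deriv 1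
    simpa using this
  have sψ' : ContDiff ℝ ∞ (deriv (deriv φ)) := by
    have := sψ.iterate_deriv 1
    simpa using this
  have h1 : ∀ x, HasDerivAt φ (deriv φ x) x := fun x =>
    ((hφ.differentiable (by simp)) x).hasDerivAt
  have h2 : ∀ x, HasDerivAt (deriv φ) (deriv (deriv φ) x) x := fun x =>
    ((sψ.differentiable (by simp)) x).hasDerivAt
  have hIoo : Ioo a (a + Real.pi) ⊆ Ioc a (a + Real.pi) := Ioo_subset_Ioc_self
  have t1 : tsupport (deriv φ) ⊆ tsupport φ := by
    refine closure_minimal support_deriv_subset (isClosed_tsupport _)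
  have t2 : Function.support (deriv (deriv φ)) ⊆ tsupport φ :=
    support_deriv_subset.trans t1
  have z0 : ∀ x ∉ Ioo a (a + Real.pi), φ x = 0 := fun x hx =>
    image_eq_zero_of_notMem_tsupport (fun h => hx (hs h))
  have z1 : ∀ x ∉ Ioo a (a + Real.pi), deriv φ x = 0 := fun x hx =>
    image_eq_zero_of_notMem_tsupport (fun h => hx (hs (t1 h)))
  have e0 : ∫ x, φ x ^ 2 = ∫ x in a..(a + Real.pi), φ x ^ 2 := by
    refine line_eq ?_
    intro x hx
    by_contra hcon
    exact hx (by simp [z0 x (fun h => hcon (hIoo h))])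
  have e1 : ∫ x, deriv φ x ^ 2 = ∫ x in a..(a + Real.pi), deriv φ x ^ 2 := by
    refine line_eq ?_
    intro x hx
    by_contra hcon
    exact hx (by simp [z1 x (fun h => hcon (hIoo h))])
  have e2 : ∫ x, deriv (deriv φ) x ^ 2 = ∫ x in a..(a + Real.pi), deriv (deriv φ) x ^ 2 := by
    refine line_eq ?_
    intro x hx
    by_contra hcon
    refine hx ?_
    have : deriv (deriv φ) x = 0 := by
      by_contra h3
      exact hcon (hIoo (hs (t2 h3)))
    simp [this]
  rw [e0, e1, e2]
  constructor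
  · have hM : ∀ x, HasDerivAt (fun x => φ (Real.pi * x + a)) (Real.pi * deriv φ (Real.pi * x + a)) x := by
      intro x
      have e : HasDerivAt (fun x : ℝ => Real.pi * x + a) (Real.pi * 1) x :=
        ((hasDerivAt_id x).const_mul _).add_const _
      have := (h1 (Real.pi * x + a)).comp x e
      refine this.congr_deriv ?_
      ring
    have hw := wirt hM (by
      exact continuous_const.mul (sψ.continuous.comp (by fun_prop)))
      (by simpa using z0 a (by simp)) (by
        have := z0 (a + Real.pi) (by simp)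
        simpa [add_comm] using this)
    have c1 : ∫ x in (0:ℝ)..1, φ (Real.pi * x + a) ^ 2 =
        Real.pi⁻¹ * ∫ x in a..(a + Real.pi), φ x ^ 2 := by
      have := intervalIntegral.integral_comp_mul_add (a := (0:ℝ)) (b := 1)
        (fun x => φ x ^ 2) hpi.ne' a
      simpa [add_comm] using this
    have c2 : ∫ x in (0:ℝ)..1, (Real.pi * deriv φ (Real.pi * x + a)) ^ 2 =
        Real.pi ^ 2 * (Real.pi⁻¹ * ∫ x in a..(a + Real.pi), deriv φ x ^ 2) := by
      have := intervalIntegral.integral_comp_mul_add (a := (0:ℝ)) (b := 1)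
        (fun x => deriv φ x ^ 2) hpi.ne' a
      simp only [mul_pow]
      rw [intervalIntegral.integral_const_mul]
      congr 1
      simpa [add_comm] using this
    rw [c1, c2] at hw
    have h3 : 0 < Real.pi ^ 2 * Real.pi⁻¹ := by positivity
    rw [← mul_assoc, ← mul_assoc] at hw
    exact le_of_mul_le_mul_left hw h3
  · set γ : ℝ → ℂ := fun s => ((deriv φ (1 / 2 * s + a) : ℝ) : ℂ) with hγ
    set γ' : ℝ → ℂ := fun s => ((1 / 2 * deriv (deriv φ) (1 / 2 * s + a) : ℝ) : ℂ) with hγ'
    have hd : ∀ s, HasDerivAt γ (γ' s) s := by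
      intro s
      have e : HasDerivAt (fun x : ℝ => 1 / 2 * x + a) (1 / 2 * 1) s :=
        ((hasDerivAt_id s).const_mul _).add_const _
      have := (h2 (1 / 2 * s + a)).comp s e
      refine (this.ofReal_comp).congr_deriv ?_
      simp [hγ']
      ring
    have hcγ' : Continuous γ' := by
      refine Complex.continuous_ofReal.comp ?_
      exact continuous_const.mul (sψ'.continuous.comp (by fun_prop))
    have hp : γ (2 * Real.pi) = γ 0 := by
      simp only [hγ]
      have k1 := z1 (a + Real.pi) (by simp)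
      have k2 := z1 a (by simp)
      have k3 : 1 / 2 * (2 * Real.pi) + a = a + Real.pi := by ring
      rw [k3, k1]
      simp [k2]
    have h0 : ∫ s in (0:ℝ)..(2 * Real.pi), γ s = 0 := by
      simp only [hγ]
      rw [intervalIntegral.integral_ofReal]
      have c := intervalIntegral.integral_comp_mul_add (a := (0:ℝ)) (b := 2 * Real.pi)
        (fun x => deriv φ x) (by norm_num : (1 / 2 : ℝ) ≠ 0) a
      have k3 : 1 / 2 * (2 * Real.pi) + a = a + Real.pi := by ring
      rw [c, k3]
      have k4 : ∫ x in (1 / 2 * 0 + a)..(a + Real.pi), deriv φ x = 0 := by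
        rw [intervalIntegral.integral_eq_sub_of_hasDerivAt (fun x _ => h1 x)
          (sψ.continuous.intervalIntegrable _ _)]
        rw [z0 (a + Real.pi) (by simp)]
        have : φ (1 / 2 * 0 + a) = 0 := by
          have := z0 a (by simp)
          simpa using this
        rw [this]; simp
      rw [k4]; simp
    have hw := CM.J1888.wirt_mean_zero γ γ' hd hcγ' hp h0
    have c1 : ∫ s in (0:ℝ)..(2 * Real.pi), ‖γ s‖ ^ 2 =
        2 * ∫ x in a..(a + Real.pi), deriv φ x ^ 2 := by
      have c := intervalIntegral.integral_comp_mul_add (a := (0:ℝ)) (b := 2 * Real.pi)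
        (fun x => deriv φ x ^ 2) (by norm_num : (1 / 2 : ℝ) ≠ 0) a
      have k3 : 1 / 2 * (2 * Real.pi) + a = a + Real.pi := by ring
      have k5 : ∀ s, ‖γ s‖ ^ 2 = deriv φ (1 / 2 * s + a) ^ 2 := by
        intro s
        simp only [hγ, Complex.norm_real, Real.norm_eq_abs, sq_abs]
      simp_rw [k5]
      rw [c, k3]
      simp
    have c2 : ∫ s in (0:ℝ)..(2 * Real.pi), ‖γ' s‖ ^ 2 =
        1 / 2 * ∫ x in a..(a + Real.pi), deriv (deriv φ) x ^ 2 := by
      have c := intervalIntegral.integral_comp_mul_add (a := (0:ℝ)) (b := 2 * Real.pi)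
        (fun x => deriv (deriv φ) x ^ 2) (by norm_num : (1 / 2 : ℝ) ≠ 0) a
      have k3 : 1 / 2 * (2 * Real.pi) + a = a + Real.pi := by ring
      have k5 : ∀ s, ‖γ' s‖ ^ 2 = 1 / 4 * deriv (deriv φ) (1 / 2 * s + a) ^ 2 := by
        intro s
        simp only [hγ', Complex.norm_real, Real.norm_eq_abs, sq_abs]
        ring
      simp_rw [k5]
      rw [intervalIntegral.integral_const_mul, c, k3]
      simp
      ring
    rw [c1, c2] at hw
    linarith

end Pool.Agent.W333.BkWir
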