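import Pool.Agent.W749.JI.Stm

/-!
# Project JI: the differentials of the initial forms are independent
-/

set_option autoImplicit false

namespace Pool.Agent.W333.JINonI

open Pool.Agent.W428.MOT Pool.Agent.W749.JI

theorem main : S_NonI := by
  classical
  intro F _ _ n k r π m c τ z hJ hc hz hg l hl hd
  set Y : Fin k → F := fun j => c j * ∏ v, z v ^ m j v with hY
  set X : Fin k → F := fun j => if j ∈ τ then l (π j) * Y j else 0 with hX
  have hY0 : ∀ j ∈ τ, Y j ≠ 0 := by
    intro j hj
    refine mul_ne_zero (hc j) (Finset.prod_ne_zero_iff.mpr fun v _ => ?_)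
    by_cases hv : m j v = 0
    · rw [hv, pow_zero]; exact one_ne_zero
    · exact pow_ne_zero _ (hz v ⟨j, hj, hv⟩)
  have h1 : ∀ i, ∑ j, (if π j = i then X j else 0) = 0 := by
    intro i
    have e1 : ∑ j, (if π j = i then X j else 0) = l i * gbar m (cI π c i) τ z := by
      rw [gbar, Finset.mul_sum, ← Finset.sum_filter_add_sum_filter_not Finset.univ (· ∈ τ)]
      have e2 : ∑ j ∈ Finset.univ.filter (fun j => ¬ j ∈ τ), (if π j = i then X j else 0) = 0 := by
        refine Finset.sum_eq_zero fun j hj => ?_
        rw [Finset.mem_filter] at hj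
        have : X j = 0 := by simp only [hX]; rw [if_neg hj.2]
        rw [this, ite_self]
      rw [e2, add_zero, Finset.filter_mem_eq_inter, Finset.univ_inter]
      refine Finset.sum_congr rfl fun j hj => ?_
      simp only [hX, hY, cI]
      rw [if_pos hj]
      by_cases h : π j = i
      · rw [if_pos h, if_pos h, h]
      · rw [if_neg h, if_neg h]; ring
    rw [e1]
    by_cases hi : i ∈ τ.image π
    · rw [hg i hi, mul_zero]
    · rw [hl i hi, zero_mul]
  have h2 : ∀ v, ∑ j, (m j v : F) * X j = 0 := by
    intro v
    have h0 : z v * ∑ i, l i * dgbar m (cI π c i) τ v z = 0 := by rw [hd v, mul_zero]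
    rw [← h0, Finset.mul_sum]
    have e1 : ∀ i, z v * (l i * dgbar m (cI π c i) τ v z) =
        ∑ j ∈ τ, (if π j = i then (m j v : F) * (l i * Y j) else 0) := by
      intro i
      rw [dgbar, Finset.mul_sum, Finset.mul_sum]
      refine Finset.sum_congr rfl fun j _ => ?_
      simp only [cI]
      by_cases hji : π j = i
      · rw [if_pos hji, if_pos hji]
        by_cases hj : m j v = 0
        · rw [hj]; simp
        · have : ∏ i', z i' ^ m j i' = z v * ∏ i', z i' ^ (m j i' - if i' = v then 1 else 0) := by
            rw [← Finset.mul_prod_erase _ _ (Finset.mem_univ v),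
              ← Finset.mul_prod_erase _ (fun i' => z i' ^ (m j i' - if i' = v then 1 else 0))
                (Finset.mem_univ v), ← mul_assoc]
            congr 1
            · simp only [if_true]
              rw [← pow_succ']
              congr 1
              omega
            · refine Finset.prod_congr rfl fun i' hi' => ?_
              rw [if_neg (Finset.ne_of_mem_erase hi'), Nat.sub_zero]
          simp only [hY]
          rw [this]
          ring
      · rw [if_neg hji, if_neg hji]; ring
    rw [Finset.sum_congr rfl fun i _ => e1 i, Finset.sum_comm]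
    have e2 : ∀ j, ∑ i, (if π j = i then (m j v : F) * (l i * Y j) else 0) =
        (m j v : F) * (l (π j) * Y j) := by
      intro j
      rw [Finset.sum_ite_eq Finset.univ (π j) (fun i => (m j v : F) * (l i * Y j)),
        if_pos (Finset.mem_univ _)]
    rw [Finset.sum_congr rfl fun j _ => e2 j,
      ← Finset.sum_filter_add_sum_filter_not Finset.univ (· ∈ τ)]
    have e3 : ∑ j ∈ Finset.univ.filter (fun j => ¬ j ∈ τ), (m j v : F) * X j = 0 := by
      refine Finset.sum_eq_zero fun j hj => ?_
      rw [Finset.mem_filter] at hj
      have : X j = 0 := by simp only [hX]; rw [if_neg hj.2]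
      rw [this, mul_zero]
    rw [e3, add_zero, Finset.filter_mem_eq_inter, Finset.univ_inter]
    refine Finset.sum_congr rfl fun j hj => ?_
    simp only [hX]
    rw [if_pos hj]
  have h3 : ∀ j, X j = 0 := by
    intro j
    refine (Module.forall_dual_apply_eq_zero_iff ℚ (X j)).mp fun φ => ?_
    refine hJ (fun j => φ (X j)) ?_ ?_ j
    · intro i
      have : ∀ j, (if π j = i then φ (X j) else 0) = φ (if π j = i then X j else 0) := by
        intro j
        split_ifs
        · rfl
        · rw [map_zero]
      rw [Finset.sum_congr rfl fun j _ => this j, ← map_sum, h1 i, map_zero]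
    · intro v
      have : ∀ j, φ (X j) * (m j v : ℚ) = φ ((m j v : F) * X j) := by
        intro j
        have : ((m j v : F) * X j) = (m j v : ℚ) • X j := by
          rw [Algebra.smul_def]
          simp
        rw [this, map_smul, smul_eq_mul, mul_comm]
      rw [Finset.sum_congr rfl fun j _ => this j, ← map_sum, h2 v, map_zero]
  intro i
  by_cases hi : i ∈ τ.image π
  · obtain ⟨j, hj, rfl⟩ := Finset.mem_image.mp hi
    have h4 := h3 j
    simp only [hX] at h4
    rw [if_pos hj] at h4
    exact (mul_eq_zero.mp h4).resolve_right (hY0 j hj)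
  · exact hl i hi

end Pool.Agent.W333.JINonI
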