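import Pool.Agent.W886.LS.Stm0
import Pool.Agent.H620R2.Gauge.Blk

set_option autoImplicit false

/-!
# Languages given by local conditions are far from the padded language
-/

namespace Pool.Agent.W333.LSEVT

open MeasureTheory Filter Pool.Agent.NPC Pool.Agent.H620R2.Gauge Pool.Agent.W886.LS

/-- the decomposition is unique -/
theorem dec_unique : ∀ (s s' : ℕ) (x x' : List Bool),
    List.replicate s false ++ true :: x = List.replicate s' false ++ true :: x' →
    s = s' ∧ x = x' := by
  intro s
  induction s with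
  | zero =>
    intro s' x x' h
    cases s' with
    | zero =>
      simp only [List.replicate_zero, List.nil_append, List.cons.injEq, true_and] at h
      exact ⟨rfl, h⟩
    | succ s' => simp [List.replicate_succ] at h
  | succ s ih =>
    intro s' x x' h
    cases s' with
    | zero => simp [List.replicate_succ] at h
    | succ s' =>
      simp only [List.replicate_succ, List.cons_append, List.cons.injEq, true_and] at h
      obtain ⟨h1, h2⟩ := ih s' x x' h
      exact ⟨by rw [h1], h2⟩

/-- the instances -/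
def yy (s n j : ℕ) : List Bool := List.replicate s false ++ true :: bitsOf n j

/-- the positions -/
def qq (s n j : ℕ) : List Bool := bitsOf n j ++ List.replicate (s * n) false

theorem length_yy (s n j : ℕ) : (yy s n j).length = n + s + 1 := by
  unfold yy
  rw [List.length_append, List.length_replicate, List.length_cons, length_bitsOf]
  ring

theorem length_qq (s n j : ℕ) : (qq s n j).length = (s + 1) * n := by
  unfold qq
  rw [List.length_append, List.length_replicate, length_bitsOf]
  ring

theorem mem_pad (A : Oracle) (s n j : ℕ) : yy s n j ∈ padLang A ↔ A (qq s n j) = true := by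
  unfold padLang
  rw [Set.mem_ofPred_eq]
  constructor
  · rintro ⟨s', x', h1, h2⟩
    obtain ⟨rfl, rfl⟩ := dec_unique _ _ _ _ h1
    rw [length_bitsOf] at h2
    exact h2
  · intro h
    refine ⟨s, bitsOf n j, rfl, ?_⟩
    rw [length_bitsOf]
    exact h

theorem qq_lt {s n n' : ℕ} (h : (s + 1) * n ≤ n') (j : ℕ) : idx (qq s n j) < 2 ^ (n' + 1) := by
  have h1 := idx_lt (qq s n j)
  rw [length_qq] at h1
  have h2 : 2 ^ ((s + 1) * n + 1) ≤ 2 ^ (n' + 1) := Nat.pow_le_pow_right (by norm_num) (by omega)
  omega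

theorem idx_inj {x y : List Bool} (h : idx x = idx y) : x = y := by
  rw [← str_idx x, h, str_idx]

theorem task : S_EVT := by
  classical
  intro Φ c s n n' hn hn' hc hΦ
  have hφinj : Function.Injective
      (fun j : Fin (2 ^ n) => (⟨idx (qq s n j), qq_lt hn' j⟩ : Fin (2 ^ (n' + 1)))) := by
    intro j j' h
    have h1 : idx (qq s n j) = idx (qq s n j') := by simpa using h
    have h2 := idx_inj h1
    unfold qq at h2
    have h3 := (List.append_inj h2 (by rw [length_bitsOf, length_bitsOf])).1
    exact Fin.ext (bitsOf_inj j.2 j'.2 h3)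
  set φ : Fin (2 ^ n) → Fin (2 ^ (n' + 1)) :=
    fun j => ⟨idx (qq s n j), qq_lt hn' j⟩ with hφ
  set P : Finset (Fin (2 ^ (n' + 1))) := Finset.univ.image φ with hP
  have hPcard : P.card = 2 ^ n := by
    rw [hP, Finset.card_image_of_injective _ hφinj, Finset.card_univ, Fintype.card_fin]
  let E : Finset (Fin (2 ^ (n' + 1)) → Bool) := Finset.univ.filter (fun w =>
    ∀ j : Fin (2 ^ n), (w (φ j) = true ↔ Φ (orc (2 ^ (n' + 1)) w) (yy s n j)))
  have hlen : ∀ q : List Bool, q.length ≤ c * (n + s + 2) → idx q < 2 ^ (n' + 1) := by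
    intro q hq
    have h1 := idx_lt q
    have h2 : 2 ^ (q.length + 1) ≤ 2 ^ (n' + 1) := Nat.pow_le_pow_right (by norm_num) (by omega)
    omega
  have hy : ∀ j : ℕ, c * ((yy s n j).length + 1) = c * (n + s + 2) := by
    intro j; rw [length_yy]
  refine ⟨E, ?_, ?_⟩
  · intro A hA
    simp only [E, Finset.mem_filter, Finset.mem_univ, true_and]
    intro j
    have h1 : Φ (orc (2 ^ (n' + 1)) (fun i : Fin (2 ^ (n' + 1)) => A (str i))) (yy s n j) ↔
        Φ A (yy s n j) := by
      apply hΦ
      intro q hq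
      rw [hy] at hq
      exact orc_pre (hlen q hq)
    rw [h1, hA, mem_pad]
    show A (str (idx (qq s n j))) = true ↔ _
    rw [str_idx]
  · have hEcard : E.card ≤ 2 ^ (2 ^ (n' + 1) - 2 ^ n) := by
      have hcard : Fintype.card ({i // i ∉ P} → Bool) = 2 ^ (2 ^ (n' + 1) - 2 ^ n) := by
        rw [Fintype.card_fun, Fintype.card_bool]
        congr 1
        rw [Fintype.card_subtype_compl, Fintype.card_fin, Fintype.card_coe, hPcard]
      rw [← hcard, ← Finset.card_univ]
      refine Finset.card_le_card_of_injOn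
        (fun w => fun i : {i // i ∉ P} => w i.1) (fun _ _ => Finset.mem_coe.2 (Finset.mem_univ _)) ?_
      intro w hw w' hw' h
      have hwE : ∀ j : Fin (2 ^ n), (w (φ j) = true ↔ Φ (orc (2 ^ (n' + 1)) w) (yy s n j)) := by
        have := Finset.mem_coe.1 hw
        simpa [E] using this
      have hwE' : ∀ j : Fin (2 ^ n), (w' (φ j) = true ↔ Φ (orc (2 ^ (n' + 1)) w') (yy s n j)) := by
        have := Finset.mem_coe.1 hw'
        simpa [E] using this
      have hout : ∀ i, i ∉ P → w i = w' i := by
        intro i hi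
        exact congrFun h ⟨i, hi⟩
      funext i
      by_cases hi : i ∈ P
      · obtain ⟨j, _, rfl⟩ := Finset.mem_image.1 hi
        have h2 : Φ (orc (2 ^ (n' + 1)) w) (yy s n j) ↔ Φ (orc (2 ^ (n' + 1)) w') (yy s n j) := by
          apply hΦ
          intro q hq
          rw [hy] at hq
          unfold orc
          rw [dif_pos (hlen q hq), dif_pos (hlen q hq)]
          apply hout
          intro hmem
          obtain ⟨j', _, he⟩ := Finset.mem_image.1 hmem
          have h3 : idx (qq s n j') = idx q := by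
            have := congrArg Fin.val he
            simpa [hφ] using this
          have h4 := idx_inj h3
          rw [← h4, length_qq] at hq
          omega
        have h5 : w (φ j) = true ↔ w' (φ j) = true := by rw [hwE j, hwE' j, h2]
        exact Bool.eq_iff_iff.2 h5
      · exact hout i hi
    have hle : 2 ^ n ≤ 2 ^ (n' + 1) := by
      rw [← hPcard]
      have := Finset.card_le_univ P
      rwa [Fintype.card_fin] at this
    have h1 : (2 : ℝ) ^ (-(2 : ℝ) ^ (n' + 1)) = ((2 : ℝ) ^ (2 ^ (n' + 1) : ℕ))⁻¹ := by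
      rw [Real.rpow_neg (by norm_num)]
      have h0 : ((2 : ℝ) ^ (n' + 1)) = ((2 ^ (n' + 1) : ℕ) : ℝ) := by push_cast; ring
      rw [h0, Real.rpow_natCast]
    rw [h1]
    have h2 : (E.card : ℝ) ≤ (2 : ℝ) ^ (2 ^ (n' + 1) - 2 ^ n) := by exact_mod_cast hEcard
    have h3 : (0 : ℝ) < (2 : ℝ) ^ (2 ^ (n' + 1) : ℕ) := by positivity
    calc (E.card : ℝ) * ((2 : ℝ) ^ (2 ^ (n' + 1) : ℕ))⁻¹
        ≤ (2 : ℝ) ^ (2 ^ (n' + 1) - 2 ^ n) * ((2 : ℝ) ^ (2 ^ (n' + 1) : ℕ))⁻¹ :=
          mul_le_mul_of_nonneg_right h2 (inv_nonneg.2 h3.le)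
      _ = (1 / 2) ^ (2 ^ n) := by
          rw [one_div, inv_pow, mul_inv_eq_iff_eq_mul₀ h3.ne', eq_comm,
            inv_mul_eq_iff_eq_mul₀ (by positivity), ← pow_add, Nat.add_sub_cancel' hle]

end Pool.Agent.W333.LSEVT
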